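import Pool.Agent.Lib_helper25.VC2.Final

set_option autoImplicit false

namespace Pool.Agent.Results.MP_ef4640_ag.AbelianQuotients

open Finset

noncomputable section

variable {ι : Type} [Fintype ι] [DecidableEq ι] {r : ι → ℕ} {O : ι → Type}
  [∀ i, CommRing (O i)] {A : ι → Type} [∀ i, AddCommGroup (A i)] [∀ i, Module (O i) (A i)]

/-- the points of `B = ∏ i, (A i) ^ (r i)` -/
abbrev Pts (r : ι → ℕ) (A : ι → Type) : Type := ∀ i, Fin (r i) → A i

/-- the point `x ⊗ v` of `B`: the coordinates `v k • x` in the factor `(A i) ^ (r i)`, and zero in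
the other factors -/
def tens (i : ι) (x : A i) (v : Fin (r i) → O i) : Pts r A := Pi.single i (fun k => v k • x)

/-- a ring of classes of zero-cycles on `B × B` with complex coefficients, with the product induced
by the addition of points. `P i` are the places of `O i`, `M i p` the embeddings above the place `p`
(one or two), `τ i p m` the embedding itself. `cl b` is the class of the point `b`,
and `lin i p m x v w` is the part belonging to the embedding `τ i p m` of the logarithm of the class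
of `(x ⊗ v, x ⊗ w)` -/
structure ClassRing (r : ι → ℕ) (O A : ι → Type) [∀ i, CommRing (O i)] [∀ i, AddCommGroup (A i)]
    [∀ i, Module (O i) (A i)] {P : ι → Type} [∀ i, Fintype (P i)] {M : ∀ i, P i → Type}
    [∀ i p, Fintype (M i p)] (τ : ∀ i (p : P i), M i p → O i →+* ℂ)
    (R : Type) [CommRing R] [Algebra ℂ R] where
  cl : Pts r A × Pts r A → R
  cl_zero : cl 0 = 1
  cl_add : ∀ b c, cl (b + c) = cl b * cl c
  lin : ∀ i (p : P i), M i p → A i → (Fin (r i) → O i) → (Fin (r i) → O i) → R
  lin_add : ∀ i p m x y v w, lin i p m (x + y) v w = lin i p m x v w + lin i p m y v w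
  lin_add' : ∀ i p m x v w v' w',
    lin i p m x (v + v') (w + w') = lin i p m x v w + lin i p m x v' w'
  lin_smul : ∀ i p m (a : O i) x v w, lin i p m (a • x) v w = τ i p m a • lin i p m x v w
  lin_smul' : ∀ i p m (a : O i) x v w, lin i p m x (a • v) (a • w) = τ i p m a • lin i p m x v w
  lin_mul : ∀ i p m m' x y v w, lin i p m x v w * lin i p m' y v w = 0
  cl_tens : ∀ i (x : A i) (v w : Fin (r i) → O i),
    cl (tens i x v, tens i x w) = ∏ p, (1 + ∑ m, lin i p m x v w)

/-- the class of the exterior product of two zero-cycles on `B` -/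
def ext {R : Type} [CommRing R] [Algebra ℂ R] (cl : Pts r A × Pts r A → R)
    (a a' : Pts r A →₀ ℚ) : R :=
  a.sum fun b q => a'.sum fun b' q' => ((q * q' : ℚ) : ℂ) • cl (b, b')

/-- the degree of a zero-cycle -/
def degree (a : Pts r A →₀ ℚ) : ℚ := a.sum fun _ q => q

/-- the matrices `N i` on the factors `(A i) ^ (r i)`, followed by the translation by `t` -/
def move (N : ∀ i, Matrix (Fin (r i)) (Fin (r i)) (O i)) (t b : Pts r A) : Pts r A :=
  fun i k => (∑ l, N i k l • b i l) + t i k

/-- for one homomorphism `θ i p` for each place `p`: no nonzero `ℂ`-multilinear alternating form of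
a degree `j`, `0 < j < n`, on `∏ i, ∏ p, ℂ ^ (r i)`, where `g` acts on the factor of `(i, p)` by the
matrix `θ i p (ρ g i)` and `n` is the dimension, is invariant under all `g` -/
def NoForms {G : Type} (ρ : G → ∀ i, Matrix (Fin (r i)) (Fin (r i)) (O i))
    {P : ι → Type} [∀ i, Fintype (P i)] (θ : ∀ i, P i → O i →+* ℂ) : Prop :=
  ∀ j : ℕ, 0 < j → j < ∑ i, Fintype.card (P i) * r i →
    ∀ ω : (∀ κ : (Σ i, P i), Fin (r κ.1) → ℂ) [⋀^Fin j]→ₗ[ℂ] ℂ,
      (∀ (g : G) (v : Fin j → ∀ κ : (Σ i, P i), Fin (r κ.1) → ℂ),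
        ω (fun l κ k => ∑ m, θ κ.1 κ.2 (ρ g κ.1 k m) * v l κ m) = ω v) → ω = 0

/-- the library form -/
def ClassRing.toSys {P : ι → Type} [∀ i, Fintype (P i)] {M : ∀ i, P i → Type}
    [∀ i p, Fintype (M i p)] {τ : ∀ i (p : P i), M i p → O i →+* ℂ}
    {R : Type} [CommRing R] [Algebra ℂ R] (C : ClassRing r O A τ R) :
    Pool.Agent.Lib_helper25.VC2.Sys2P (fun i => Fin (r i)) O A P M τ R where
  cl := C.cl
  zero := C.cl_zero
  add := C.cl_add
  l := C.lin
  add_left := C.lin_add
  add_right := C.lin_add'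
  smul_left := C.lin_smul
  smul_right := C.lin_smul'
  sq := C.lin_mul
  rel := C.cl_tens

/-- `a × a' = (-1)^n a' × a` for quotients of abelian varieties by finite groups -/
theorem result {ι : Type} [Fintype ι] [DecidableEq ι] {r : ι → ℕ} {O A : ι → Type}
    [∀ i, CommRing (O i)] [∀ i, AddCommGroup (A i)] [∀ i, Module (O i) (A i)]
    {P : ι → Type} [∀ i, Fintype (P i)] {M : ∀ i, P i → Type} [∀ i p, Fintype (M i p)]
    [∀ i p, Nonempty (M i p)] {τ : ∀ i (p : P i), M i p → O i →+* ℂ}
    (hτ : ∀ i p, Function.Injective (τ i p))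
    {R : Type} [CommRing R] [Algebra ℂ R] (C : ClassRing r O A τ R)
    {G : Type} [Group G] [Finite G] (ρ : G → ∀ i, Matrix (Fin (r i)) (Fin (r i)) (O i))
    (h1 : ∀ i, ρ 1 i = 1) (hmul : ∀ g h i, ρ (g * h) i = ρ g i * ρ h i)
    (hforms : ∀ c : (∀ i p, M i p), ∃ α : ℂ →+* ℂ,
      NoForms ρ (fun i p => α.comp (τ i p (c i p)))) (t : G → Pts r A)
    (a a' : Pts r A →₀ ℚ) (ha : degree a = 0) (ha' : degree a' = 0)
    (hinv : ∀ g, a.mapDomain (move (ρ g) (t g)) = a)
    (hinv' : ∀ g, a'.mapDomain (move (ρ g) (t g)) = a') :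
    ext C.cl a a' = (-1) ^ (∑ i, Fintype.card (P i) * r i) * ext C.cl a' a := by
  classical
  cases nonempty_fintype G
  have hn : ∑ κ : (Σ i, P i), Fintype.card (Fin (r κ.1)) = ∑ i, Fintype.card (P i) * r i := by
    rw [Fintype.sum_sigma]
    simp
  let ρ' : ∀ i, G →* Matrix (Fin (r i)) (Fin (r i)) (O i) := fun i =>
    { toFun := fun g => ρ g i
      map_one' := h1 i
      map_mul' := fun g h => hmul g h i }
  have hf : Pool.Agent.Lib_helper25.VC2.NoForms2 ρ' τ := by
    intro c
    obtain ⟨α, hα⟩ := hforms c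
    refine ⟨α, ?_⟩
    intro j hj hj' ω hω
    rw [hn] at hj'
    exact hα j hj hj' ω fun g v => hω g v
  have key := C.toSys.final ρ' hτ (fun i p => Classical.arbitrary _) hf t a a' ha ha' hinv hinv'
  rw [hn] at key
  exact key

end

end Pool.Agent.Results.MP_ef4640_ag.AbelianQuotients
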