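import Pool.Agent.Lib_helper25.VC.Univ

set_option autoImplicit false

namespace Pool.Agent.Results.MP_ef4640_ag.EllipticQuotients

open Finset

noncomputable section

variable {ι : Type} [Fintype ι] [DecidableEq ι] {r : ι → ℕ} {O : ι → Type}
  [∀ i, CommRing (O i)] {E : ι → Type} [∀ i, AddCommGroup (E i)] [∀ i, Module (O i) (E i)]

/-- the points of `B = ∏ i, (E i) ^ (r i)` -/
abbrev Pts (r : ι → ℕ) (E : ι → Type) : Type := ∀ i, Fin (r i) → E i

/-- the point `x ⊗ v` of `B`: the coordinates `v k • x` in the factor `(E i) ^ (r i)`, and zero in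
the other factors -/
def tens (i : ι) (x : E i) (v : Fin (r i) → O i) : Pts r E := Pi.single i (fun k => v k • x)

/-- the Abel relations on `B × B`: for `c x = p + (x ⊗ v, x ⊗ w)`, a map from `E i` to `B × B`, the
image `[c (x + y)] - [c x] - [c y] + [c 0]` of the principal divisor `[x + y] - [x] - [y] + [0]` -/
def AbelRel (r : ι → ℕ) (O E : ι → Type) [∀ i, CommRing (O i)] [∀ i, AddCommGroup (E i)]
    [∀ i, Module (O i) (E i)] : Set ((Pts r E × Pts r E) →₀ ℚ) :=
  {u | ∃ (p : Pts r E × Pts r E) (i : ι) (x y : E i) (v w : Fin (r i) → O i),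
    u = Finsupp.single (p + (tens i (x + y) v, tens i (x + y) w)) 1
      - Finsupp.single (p + (tens i x v, tens i x w)) 1
      - Finsupp.single (p + (tens i y v, tens i y w)) 1 + Finsupp.single p 1}

/-- the exterior product of two zero-cycles on `B`, a zero-cycle on `B × B` -/
def ext (a a' : Pts r E →₀ ℚ) : (Pts r E × Pts r E) →₀ ℚ :=
  a.sum fun b q => a'.sum fun b' q' => Finsupp.single (b, b') (q * q')

/-- the degree of a zero-cycle -/
def degree (a : Pts r E →₀ ℚ) : ℚ := a.sum fun _ q => q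

/-- the matrices `N i` on the factors `(E i) ^ (r i)`, followed by the translation by `t` -/
def move (N : ∀ i, Matrix (Fin (r i)) (Fin (r i)) (O i)) (t b : Pts r E) : Pts r E :=
  fun i k => (∑ l, N i k l • b i l) + t i k

/-- no nonzero `ℂ`-multilinear alternating form of a degree `j`, `0 < j < n`, on the tangent space
`∏ i, ℂ ^ (r i)`, `n = ∑ i, r i`, is invariant under all `ρ g` -/
def NoForms (σ : ∀ i, O i →+* ℂ) {G : Type} (ρ : G → ∀ i, Matrix (Fin (r i)) (Fin (r i)) (O i)) :
    Prop :=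
  ∀ j : ℕ, 0 < j → j < ∑ i, r i →
    ∀ ω : (∀ i, Fin (r i) → ℂ) [⋀^Fin j]→ₗ[ℂ] ℂ,
      (∀ (g : G) (v : Fin j → ∀ i, Fin (r i) → ℂ),
        ω (fun l i k => ∑ m, σ i (ρ g i k m) * v l i m) = ω v) → ω = 0

/-- the images of the rings `O i` in `ℂ` are linearly disjoint: if `∑ k, ∏ i, σ i (x k i) = 0`,
then `∑ k, f (x k) = 0` for each rational function `f` on `∏ i, O i` which is additive in each
variable (the tensor product of the `O i` over `ℤ`, modulo torsion, embeds in `ℂ`) -/
def LinDisj (σ : ∀ i, O i →+* ℂ) : Prop :=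
  ∀ (m : ℕ) (x : Fin m → ∀ i, O i), ∑ k, ∏ i, σ i (x k i) = 0 →
    ∀ f : (∀ i, O i) → ℚ,
      (∀ (y : ∀ i, O i) (i : ι) (a b : O i), f (Function.update y i (a + b)) =
        f (Function.update y i a) + f (Function.update y i b)) → ∑ k, f (x k) = 0

/-- the ring of the square -/
abbrev Q (r : ι → ℕ) (O E : ι → Type) [∀ i, CommRing (O i)] [∀ i, AddCommGroup (E i)]
    [∀ i, Module (O i) (E i)] : Type :=
  AddMonoidAlgebra ℚ (Pts r E × Pts r E) ⧸
    Ideal.span (AddMonoidAlgebra.ofCoeff '' AbelRel r O E)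

/-- the system of the square -/
def sys (r : ι → ℕ) (O E : ι → Type) [∀ i, CommRing (O i)] [∀ i, AddCommGroup (E i)]
    [∀ i, Module (O i) (E i)] :
    Pool.Agent.Lib_helper25.VC.Sys2 (fun i => Fin (r i)) O E (Q r O E) where
  φ b := Ideal.Quotient.mk _ (AddMonoidAlgebra.single b 1)
  zero := by rw [← AddMonoidAlgebra.one_def, map_one]
  add b c := by rw [← map_mul, AddMonoidAlgebra.single_mul_single, one_mul]
  rel i x y v w := by
    rw [← map_one (Ideal.Quotient.mk (Ideal.span (AddMonoidAlgebra.ofCoeff '' AbelRel r O E))),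
      ← map_add, ← map_sub, Ideal.Quotient.eq]
    apply Ideal.subset_span
    refine ⟨_, ⟨0, i, x, y, v, w, rfl⟩, ?_⟩
    rw [zero_add, zero_add, zero_add, AddMonoidAlgebra.ofCoeff_add, AddMonoidAlgebra.ofCoeff_sub,
      AddMonoidAlgebra.ofCoeff_sub]
    simp only [AddMonoidAlgebra.ofCoeff_single]
    rw [← AddMonoidAlgebra.one_def]
    change AddMonoidAlgebra.single (tens i (x + y) v, tens i (x + y) w) 1 -
      AddMonoidAlgebra.single (tens i x v, tens i x w) 1 -
      AddMonoidAlgebra.single (tens i y v, tens i y w) 1 + 1 =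
      AddMonoidAlgebra.single (tens i (x + y) v, tens i (x + y) w) 1 -
      (AddMonoidAlgebra.single (tens i x v, tens i x w) 1 +
      AddMonoidAlgebra.single (tens i y v, tens i y w) 1 - 1)
    ring

theorem mul_coeff {X : Type*} [AddCommGroup X] (q : X) (c : ℚ) (x : AddMonoidAlgebra ℚ X) :
    (AddMonoidAlgebra.single q c * x).coeff =
      c • Finsupp.lmapDomain ℚ ℚ (fun p => q + p) x.coeff := by
  induction x using AddMonoidAlgebra.induction_linear with
  | zero => simp
  | add a b ha hb => rw [mul_add, AddMonoidAlgebra.coeff_add, ha, hb, AddMonoidAlgebra.coeff_add,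
      map_add, smul_add]
  | single m d =>
    rw [AddMonoidAlgebra.single_mul_single, AddMonoidAlgebra.coeff_single,
      AddMonoidAlgebra.coeff_single, Finsupp.lmapDomain_apply, Finsupp.mapDomain_single,
      Finsupp.smul_single, smul_eq_mul]

theorem span_translate (q : Pts r E × Pts r E) (u : (Pts r E × Pts r E) →₀ ℚ)
    (hu : u ∈ Submodule.span ℚ (AbelRel r O E)) :
    Finsupp.lmapDomain ℚ ℚ (fun p => q + p) u ∈ Submodule.span ℚ (AbelRel r O E) := by
  have h : Submodule.span ℚ (AbelRel r O E) ≤ Submodule.comap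
      (Finsupp.lmapDomain ℚ ℚ (fun p => q + p)) (Submodule.span ℚ (AbelRel r O E)) := by
    rw [Submodule.span_le]
    rintro _ ⟨p, i, x, y, v, w, rfl⟩
    apply Submodule.subset_span
    refine ⟨q + p, i, x, y, v, w, ?_⟩
    rw [map_add, map_sub, map_sub]
    simp only [Finsupp.lmapDomain_apply, Finsupp.mapDomain_single, add_assoc]
  exact h hu

theorem ideal_le (u : AddMonoidAlgebra ℚ (Pts r E × Pts r E))
    (hu : u ∈ Ideal.span (AddMonoidAlgebra.ofCoeff '' AbelRel r O E)) :
    u.coeff ∈ Submodule.span ℚ (AbelRel r O E) := by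
  induction hu using Submodule.span_induction with
  | mem x hx =>
    obtain ⟨y, hy, rfl⟩ := hx
    exact Submodule.subset_span hy
  | zero => exact Submodule.zero_mem _
  | add x y _ _ hx hy => exact Submodule.add_mem _ hx hy
  | smul a x _ hx =>
    rw [smul_eq_mul]
    induction a using AddMonoidAlgebra.induction_linear with
    | zero => rw [zero_mul]; exact Submodule.zero_mem _
    | add a b ha hb => rw [add_mul]; exact Submodule.add_mem _ ha hb
    | single q c =>
      rw [mul_coeff]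
      exact Submodule.smul_mem _ _ (span_translate q _ hx)

theorem Phi_ext (a a' : Pts r E →₀ ℚ) :
    Ideal.Quotient.mk (Ideal.span (AddMonoidAlgebra.ofCoeff '' AbelRel r O E))
      (AddMonoidAlgebra.ofCoeff (ext a a')) =
      (sys r O E).fst.Φ a * (sys r O E).snd.Φ a' := by
  unfold ext
  rw [AddMonoidAlgebra.ofCoeff_finsuppSum]
  unfold Pool.Agent.Lib_helper25.VC.Sys.Φ
  rw [Finsupp.sum, Finsupp.sum, Finsupp.sum, map_sum, Finset.sum_mul]
  refine Finset.sum_congr rfl fun b _ => ?_
  rw [AddMonoidAlgebra.ofCoeff_finsuppSum, Finsupp.sum, map_sum, Finset.mul_sum]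
  refine Finset.sum_congr rfl fun b' _ => ?_
  change _ = (a b • Ideal.Quotient.mk _ (AddMonoidAlgebra.single (b, 0) 1)) *
    (a' b' • Ideal.Quotient.mk _ (AddMonoidAlgebra.single (0, b') 1))
  rw [smul_mul_smul_comm, ← map_mul, AddMonoidAlgebra.single_mul_single]
  rw [Prod.mk_add_mk, add_zero, zero_add, one_mul, AddMonoidAlgebra.ofCoeff_single]
  have : AddMonoidAlgebra.single (b, b') (a b * a' b') =
      (a b * a' b') • (AddMonoidAlgebra.single (b, b') 1 :
        AddMonoidAlgebra ℚ (Pts r E × Pts r E)) := by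
    rw [AddMonoidAlgebra.smul_single, smul_eq_mul, mul_one]
  rw [this]
  exact map_smul (Ideal.Quotient.mkₐ ℚ
    (Ideal.span (AddMonoidAlgebra.ofCoeff '' AbelRel r O E))) _ _

/-- `a × a' = (-1)^n a' × a` modulo the Abel relations, for quotients of products of elliptic
curves by finite groups -/
theorem result {ι : Type} [Fintype ι] [DecidableEq ι] {O : ι → Type} [∀ i, CommRing (O i)]
    (σ : ∀ i, O i →+* ℂ) (hσ : LinDisj σ) {E : ι → Type} [∀ i, AddCommGroup (E i)]
    [∀ i, Module (O i) (E i)] {r : ι → ℕ} {G : Type} [Group G] [Finite G]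
    (ρ : G → ∀ i, Matrix (Fin (r i)) (Fin (r i)) (O i)) (h1 : ∀ i, ρ 1 i = 1)
    (hmul : ∀ g h i, ρ (g * h) i = ρ g i * ρ h i) (hforms : NoForms σ ρ) (t : G → Pts r E)
    (a a' : Pts r E →₀ ℚ) (ha : degree a = 0) (ha' : degree a' = 0)
    (hinv : ∀ g, a.mapDomain (move (ρ g) (t g)) = a)
    (hinv' : ∀ g, a'.mapDomain (move (ρ g) (t g)) = a') :
    ext a a' - (-1 : ℚ) ^ (∑ i, r i) • ext a' a ∈ Submodule.span ℚ (AbelRel r O E) := by
  classical
  cases nonempty_fintype G
  have hn : ∑ i, Fintype.card (Fin (r i)) = ∑ i, r i := by simp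
  let ρ' : ∀ i, G →* Matrix (Fin (r i)) (Fin (r i)) (O i) := fun i =>
    { toFun := fun g => ρ g i
      map_one' := h1 i
      map_mul' := fun g h => hmul g h i }
  have hf : Pool.Agent.Lib_helper25.VC.NoForms σ ρ' := by
    intro j hj hj' ω hω
    rw [hn] at hj'
    refine hforms j hj hj' ω fun g v => ?_
    exact hω g v
  have key := (sys r O E).final ρ' σ hσ hf t a a' ha ha' hinv hinv'
  rw [hn, ← Phi_ext, ← Phi_ext] at key
  have h2 : AddMonoidAlgebra.ofCoeff (ext a a') -
      (-1 : ℚ) ^ (∑ i, r i) • AddMonoidAlgebra.ofCoeff (ext a' a) ∈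
      Ideal.span (AddMonoidAlgebra.ofCoeff '' AbelRel r O E) := by
    rw [← Ideal.Quotient.eq, key]
    have e : (-1 : ℚ) ^ (∑ i, r i) • AddMonoidAlgebra.ofCoeff (ext a' a) =
        (-1 : AddMonoidAlgebra ℚ (Pts r E × Pts r E)) ^ (∑ i, r i) *
          AddMonoidAlgebra.ofCoeff (ext a' a) := by
      rcases neg_one_pow_eq_or ℚ (∑ i, r i) with h | h
      · have : (-1 : AddMonoidAlgebra ℚ (Pts r E × Pts r E)) ^ (∑ i, r i) = 1 := by
          rcases Nat.even_or_odd (∑ i, r i) with h3 | h3
          · exact h3.neg_one_pow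
          · rw [h3.neg_one_pow] at h; norm_num at h
        rw [h, this, one_smul, one_mul]
      · have : (-1 : AddMonoidAlgebra ℚ (Pts r E × Pts r E)) ^ (∑ i, r i) = -1 := by
          rcases Nat.even_or_odd (∑ i, r i) with h3 | h3
          · rw [h3.neg_one_pow] at h; norm_num at h
          · exact h3.neg_one_pow
        rw [h, this, neg_smul, one_smul, neg_one_mul]
    rw [e, map_mul, map_pow, map_neg, map_one]
  have h3 := ideal_le _ h2
  rwa [AddMonoidAlgebra.coeff_sub, AddMonoidAlgebra.coeff_smul] at h3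

end

end Pool.Agent.Results.MP_ef4640_ag.EllipticQuotients
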